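import Mathlib
import Pool.Agent.Helper22K9.Dif

/-!
# Differences of two primes among the differences of the elements of an ARBITRARY finite set, at every scale

`q d` is a difference of two primes of a window if for at least `x ^ (1 - η)` primes `p ≡ a (mod q)` in the
window also `p + q d` is a prime of the window. All the statements hold for EVERY large scale `x` (large in
terms of `q` and `η` only), and the elements of the sets may be as large as `x` divided by a constant.

* (cliques) Let `T > (18 / 5) M`. For ANY `T` finite sets with at least `n` elements all but a proportion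
  `C n ^ (-δ)` of the `T`-tuples with one entry in each of the sets contain `M + 1` different entries such that
  for ALL pairs of these `M + 1` entries `q` times the difference is a difference of two primes of
  `[x, 9 x]`. The only condition on the sets: for every prime `p ≤ T` with `p ∤ q` they miss a class modulo `p`.
* (pairs) For ANY finite set `V` with `n` elements at least a proportion `1 / 3 - C n ^ (-δ)` of the pairs
  `y < z` of elements of `V` are such that `q (z - y)` is a difference of two primes of `[x, (1 + s) x]`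
  (condition: `V` misses a class modulo `2` if `q` is odd, and modulo `3` if `3 ∤ q`; none for `6 ∣ q`). Without the
  condition modulo `3` this is true for at least a proportion `1 / 4 - C n ^ (-δ)` of the pairs.

Starting point (starting files): the coloured Maynard-Tao theorems at the scale `x`. New: a set of tuples
without the property contains no large box with sides in residue classes, so it is small, with a power saving;
the inequalities of Moon and Moser for the graph of the bad pairs.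
-/

set_option autoImplicit false

namespace Pool.Agent.Results.MP_70e905_nt.PairsAtEveryScale

open Finset Filter

/-- The number of the primes `p` with `p ≡ a (mod q)` and `x ≤ p` for which `p + d` is a prime and
`p + d ≤ (1 + s) x`. -/
noncomputable def twins (s : ℝ) (x q a d : ℕ) : ℕ :=
  {p : ℕ | p.Prime ∧ (p + d).Prime ∧ p ≡ a [MOD q] ∧ (x : ℝ) ≤ p ∧
    ((p + d : ℕ) : ℝ) ≤ (1 + s) * x}.ncard

/-- `q d` is a difference of two primes `p`, `p + q d` of `[x, (1 + s) x]`, `p ≡ a (mod q)`, in at least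
`x ^ (1 - η)` ways. -/
def Diff (s η : ℝ) (x q a d : ℕ) : Prop := (x : ℝ) ^ (1 - η) ≤ twins s x q a (q * d)

/-- The tuple `f` has `M + 1` different entries such that all their differences satisfy `Diff`. -/
def Clique {T : ℕ} (M : ℕ) (s η : ℝ) (x q a : ℕ) (f : Fin T → ℕ) : Prop :=
  ∃ S : Finset (Fin T), M + 1 ≤ S.card ∧ Set.InjOn f S ∧
    ∀ i ∈ S, ∀ j ∈ S, f i < f j → Diff s η x q a (f j - f i)

open Classical in
/-- The number of the tuples, with one entry in each of the sets, which do not have the property. -/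
noncomputable def exceptions {T : ℕ} (M : ℕ) (s η : ℝ) (x q a : ℕ) (V : Fin T → Finset ℕ) : ℕ :=
  ((Fintype.piFinset V).filter (fun f => ¬ Clique M s η x q a f)).card

open Classical in
/-- The number of the pairs `y < z` of elements of `V` whose difference satisfies `Diff`. -/
noncomputable def goodPairs (s η : ℝ) (x q a : ℕ) (V : Finset ℕ) : ℕ :=
  ((V ×ˢ V).filter (fun z => z.1 < z.2 ∧ Diff s η x q a (z.2 - z.1))).card

theorem result :
    -- cliques in tuples
    (∀ T M : ℕ, 1 ≤ T → (18 / 5 : ℝ) * M < T → ∃ C δ : ℝ, 0 < δ ∧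
      ∀ q : ℕ, 1 ≤ q → ∀ η : ℝ, 0 < η → ∀ᶠ x : ℕ in atTop, ∀ a : ℕ, a.Coprime q →
      ∀ n : ℕ, 1 ≤ n → ∀ V : Fin T → Finset ℕ, (∀ i, n ≤ (V i).card) →
      (∀ i, ∀ y ∈ V i, 2 * (q ^ 2 * y) ≤ x) →
      (∀ p : ℕ, p.Prime → p ≤ T → ¬ p ∣ q → ∃ ρ < p, ∀ i, ∀ y ∈ V i, y % p ≠ ρ) →
      (exceptions M 8 η x q a V : ℝ) ≤ C * (n : ℝ) ^ (-δ) * ∏ i, ((V i).card : ℝ)) ∧
    -- pairs, at least a third
    (∀ s : ℝ, 0 < s → ∃ (C₀ : ℕ) (C δ : ℝ), 0 < δ ∧
      ∀ q : ℕ, 1 ≤ q → ∀ η : ℝ, 0 < η → ∀ᶠ x : ℕ in atTop, ∀ a : ℕ, a.Coprime q →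
      ∀ V : Finset ℕ, 1 ≤ V.card → (∀ y ∈ V, C₀ * (q ^ 2 * y) ≤ x) →
      (2 ∣ q ∨ ∃ ρ < 2, ∀ y ∈ V, y % 2 ≠ ρ) → (3 ∣ q ∨ ∃ ρ < 3, ∀ y ∈ V, y % 3 ≠ ρ) →
      (1 / 3 - C * (V.card : ℝ) ^ (-δ)) * ((V.card : ℝ) ^ 2 / 2) ≤ goodPairs s η x q a V) ∧
    -- pairs, no condition modulo 3, at least a quarter
    (∀ s : ℝ, 0 < s → ∃ (C₀ : ℕ) (C δ : ℝ), 0 < δ ∧
      ∀ q : ℕ, 1 ≤ q → ∀ η : ℝ, 0 < η → ∀ᶠ x : ℕ in atTop, ∀ a : ℕ, a.Coprime q →
      ∀ V : Finset ℕ, 1 ≤ V.card → (∀ y ∈ V, C₀ * (q ^ 2 * y) ≤ x) →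
      (2 ∣ q ∨ ∃ ρ < 2, ∀ y ∈ V, y % 2 ≠ ρ) →
      (1 / 4 - C * (V.card : ℝ) ^ (-δ)) * ((V.card : ℝ) ^ 2 / 2) ≤ goodPairs s η x q a V) := by
  classical
  refine ⟨fun T M hT hTM => ?_, fun s hs => ?_, fun s hs => ?_⟩
  · obtain ⟨C, δ, -, hδ, -, h⟩ := Pool.Agent.Helper22K9.tup185 T M hT hTM
    refine ⟨C, δ, hδ, fun q hq η hη => ?_⟩
    filter_upwards [h q hq η hη] with x hx a ha n hn V hV hVx hL
    have h1 := hx a ha n hn V hV hVx hL
    exact h1
  · obtain ⟨C₀, C, δ, -, hδ, h⟩ := Pool.Agent.Helper22K9.pairsX 2 4 s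
      (Pool.Agent.Helper22K9.tupN4 s hs)
    refine ⟨C₀, C, δ, hδ, fun q hq η hη => ?_⟩
    filter_upwards [h q hq η hη] with x hx a ha V hV hVx hL2 hL3
    have h1 := hx a ha V hV hVx (by
      intro p hp hp4 hpq
      have h2 := hp.two_le
      have h4 : p ≠ 4 := fun h => by subst h; exact absurd hp (by decide)
      rcases (by omega : p = 2 ∨ p = 3) with rfl | rfl
      · rcases hL2 with h | h
        · exact absurd h hpq
        · exact h
      · rcases hL3 with h | h
        · exact absurd h hpq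
        · exact h)
    have e : (1 : ℝ) / (((2 : ℕ) : ℝ) + 1) = 1 / 3 := by norm_num
    rw [e] at h1
    exact h1
  · obtain ⟨C₀, C, δ, -, hδ, h⟩ := Pool.Agent.Helper22K9.pairsX 3 2 s
      (Pool.Agent.Helper22K9.tupN5 s hs)
    refine ⟨C₀, C, δ, hδ, fun q hq η hη => ?_⟩
    filter_upwards [h q hq η hη] with x hx a ha V hV hVx hL2
    have h1 := hx a ha V hV hVx (by
      intro p hp hp4 hpq
      have h2 := hp.two_le
      obtain rfl : p = 2 := by omega
      rcases hL2 with h | h
      · exact absurd h hpq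
      · exact h)
    have e : (1 : ℝ) / (((3 : ℕ) : ℝ) + 1) = 1 / 4 := by norm_num
    rw [e] at h1
    exact h1

end Pool.Agent.Results.MP_70e905_nt.PairsAtEveryScale
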