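import Mathlib
import Pool.Agent.Helper22K9.Gap

/-!
# Gaps between consecutive primes among the differences of the elements of an ARBITRARY finite set

Let `N` be even and squarefree and `a` prime to `N`; `N d` is called a gap if it is equal to
`p_(l+1) - p_l`, `p_l ≡ a (mod N)`, for at least `x ^ (1 - η)` primes `p_l ≤ x`, for every `η > 0` and
arbitrarily large `x`. There are absolute constants `C` and `δ > 0` (which do not depend on `N` and `a`) such that:

* (tuples) for ANY five finite sets with at least `n` elements all but a proportion `C n ^ (-δ)` of the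
  quintuples with one entry in each set have two entries whose difference, times `N`, is a gap; if `3 ∣ N`,
  or if the sets miss a residue class modulo `3`, then four sets are enough;
* (pairs) for ANY finite set `V` with `n` elements at least a proportion `1 / 4 - C n ^ (-δ)` of all pairs
  `y < z` of elements of `V` are such that `N (z - y)` is a gap; if `3 ∣ N`, or if `V` misses a residue class
  modulo `3`, then this is true for at least a proportion `1 / 3 - C n ^ (-δ)` of the pairs.

The sets may be as sparse as we like; for `N = 6` there is no condition on them. Starting point (starting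
files): the coloured Maynard-Tao theorem with four classes of shifts. New: the sets of tuples without gaps
contain no large boxes with sides in residue classes, so they are small (with a power saving); for the pairs
the inequalities of Moon and Moser are used for the graph of the pairs without gaps.
-/

set_option autoImplicit false

namespace Pool.Agent.Results.MP_70e905_nt.PairsOfAnySet

open Finset Filter

/-- `N d` is, for every `η > 0` and arbitrarily large `x`, the gap `p_(l+1) - p_l` for at least
`x ^ (1 - η)` of the `l` with `p_l ≤ x` and `p_l ≡ a (mod N)`. -/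
def IsGap (N a d : ℕ) : Prop := ∀ η : ℝ, 0 < η → ∃ᶠ x : ℝ in atTop,
  x ^ (1 - η) ≤ ({l : ℕ | (Nat.nth Nat.Prime l : ℝ) ≤ x ∧ Nat.nth Nat.Prime l ≡ a [MOD N] ∧
    Nat.nth Nat.Prime (l + 1) = Nat.nth Nat.Prime l + N * d}.ncard : ℝ)

/-- A tuple without gaps: for no two of its entries `N` times the difference is a gap. -/
def NoGap (N a : ℕ) {T : ℕ} (f : Fin T → ℕ) : Prop := ∀ i j, f i < f j → ¬ IsGap N a (f j - f i)

open Classical in
/-- The number of the tuples without gaps, with one entry in each of the sets. -/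
noncomputable def noGaps (N a : ℕ) {T : ℕ} (V : Fin T → Finset ℕ) : ℕ :=
  ((Fintype.piFinset V).filter (fun f => NoGap N a f)).card

open Classical in
/-- The number of the pairs `y < z` of elements of `V` such that `N (z - y)` is a gap. -/
noncomputable def gapPairs (N a : ℕ) (V : Finset ℕ) : ℕ :=
  ((V ×ˢ V).filter (fun z => z.1 < z.2 ∧ IsGap N a (z.2 - z.1))).card

theorem result : ∃ C δ : ℝ, 0 < δ ∧ ∀ N a : ℕ, Squarefree N → 2 ∣ N → a.Coprime N →
    -- any five sets
    (∀ n : ℕ, 1 ≤ n → ∀ V : Fin 5 → Finset ℕ, (∀ i, n ≤ (V i).card) →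
      (noGaps N a V : ℝ) ≤ C * (n : ℝ) ^ (-δ) * ∏ i, ((V i).card : ℝ)) ∧
    -- four sets
    (∀ n : ℕ, 1 ≤ n → ∀ V : Fin 4 → Finset ℕ, (∀ i, n ≤ (V i).card) →
      (3 ∣ N ∨ ∃ ρ < 3, ∀ i, ∀ y ∈ V i, y % 3 ≠ ρ) →
      (noGaps N a V : ℝ) ≤ C * (n : ℝ) ^ (-δ) * ∏ i, ((V i).card : ℝ)) ∧
    -- the pairs of any set
    (∀ V : Finset ℕ, 1 ≤ V.card →
      (1 / 4 - C * (V.card : ℝ) ^ (-δ)) * ((V.card : ℝ) ^ 2 / 2) ≤ gapPairs N a V) ∧
    (∀ V : Finset ℕ, 1 ≤ V.card → (3 ∣ N ∨ ∃ ρ < 3, ∀ y ∈ V, y % 3 ≠ ρ) →
      (1 / 3 - C * (V.card : ℝ) ^ (-δ)) * ((V.card : ℝ) ^ 2 / 2) ≤ gapPairs N a V) := by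
  classical
  obtain ⟨C, δ, -, hδ, h⟩ := Pool.Agent.Helper22K9.final
  refine ⟨C, δ, hδ, fun N a hsq h2 ha => ?_⟩
  obtain ⟨h1, h2', h3, h4⟩ := h N a (Nat.pos_of_ne_zero hsq.ne_zero) h2 hsq ha
  refine ⟨fun n hn V hV => ?_, fun n hn V hV hL => ?_, fun V hV => ?_, fun V hV hL => ?_⟩
  · exact h2' n hn V hV
  · exact h1 n hn V hV (by
      rcases hL with h | ⟨ρ, h5, h6⟩
      · exact Or.inl h
      · exact Or.inr ⟨ρ, h5, h6⟩)
  · have h5 := h4 V hV
    unfold gapPairs
    convert h5
    exact Iff.rfl
  · have h5 := h3 V hV (by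
      rcases hL with h | ⟨ρ, h5, h6⟩
      · exact Or.inl h
      · exact Or.inr ⟨ρ, h5, fun _ => h6⟩)
    unfold gapPairs
    convert h5
    exact Iff.rfl

end Pool.Agent.Results.MP_70e905_nt.PairsOfAnySet
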