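import Mathlib
import Pool.Agent.Helper22K9.Ram

/-!
# Several multiples of the same number are simultaneously gaps between consecutive primes

`N d` is called a gap if it is equal to `p_(l+1) - p_l`, `p_l ≡ a (mod N)`, for at least `x ^ (1 - η)` primes
`p_l ≤ x`, for every `η > 0` and arbitrarily large `x`; here `6 ∣ N`, `N` is squarefree and `a` is prime to `N`.

Let `R` be a number such that every colouring of the pairs of `R` points with `m` colours has a monochromatic
set of four points (the multicolour Ramsey number of `K_4`: `R = 18` for `m = 2`). Let `b_1, …, b_m` be ANY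
positive integers. Then

* for ANY finite set `V` with `n` elements at least a proportion `1 / (R - 1) - C n ^ (-δ)` of the pairs
  `y < z` of its elements are such that ALL the numbers `N b_1 (z - y), …, N b_m (z - y)` are gaps, where `C`
  and `δ > 0` depend on `m` and `R` only; and all but a proportion `C n ^ (-δ)` of the `R`-tuples with
  entries in `R` arbitrary sets with at least `n` elements contain such a pair;
* for every `H ≥ H₀(m, R, ε)` at least `(1 / (2 (R - 1)) - ε) H` of the `d ≤ H` are such that all the numbers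
  `N b_1 d, …, N b_m d` are gaps. For instance: for any two multiples `u` and `v` of `6` and all `H ≥ H₀(ε)`,
  `H₀(ε)` independent of `u` and `v`, for at least `(1 / 34 - ε) H` of the `d ≤ H` both `u d` and `v d` are
  gaps between consecutive primes.

Starting point (starting files): the coloured Maynard-Tao theorem with four classes of shifts. New: tuples
whose pairs are all bad for one of the multipliers are coloured by the multiplier; a box of such tuples
contains four rows of one colour.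
-/

set_option autoImplicit false

namespace Pool.Agent.Results.MP_70e905_nt.SimultaneousMultiples

open Finset Filter

/-- `N d` is, for every `η > 0` and arbitrarily large `x`, the gap `p_(l+1) - p_l` for at least
`x ^ (1 - η)` of the `l` with `p_l ≤ x` and `p_l ≡ a (mod N)`. -/
def IsGap (N a d : ℕ) : Prop := ∀ η : ℝ, 0 < η → ∃ᶠ x : ℝ in atTop,
  x ^ (1 - η) ≤ ({l : ℕ | (Nat.nth Nat.Prime l : ℝ) ≤ x ∧ Nat.nth Nat.Prime l ≡ a [MOD N] ∧
    Nat.nth Nat.Prime (l + 1) = Nat.nth Nat.Prime l + N * d}.ncard : ℝ)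

/-- In every colouring of the pairs of `R` points with `m` colours there are four points whose pairs have
the same colour. -/
def Ramsey4 (m R : ℕ) : Prop := ∀ c : Fin R → Fin R → Fin m, (∀ i j, c i j = c j i) →
  ∃ (e : Fin 4 ↪ Fin R) (k : Fin m), ∀ i j, i ≠ j → c (e i) (e j) = k

open Classical in
/-- The number of the tuples, with one entry in each of the sets `V i`, which do not contain two entries
`f i < f j` such that all the `N b_k (f j - f i)` are gaps. -/
noncomputable def exceptions (N a : ℕ) {m : ℕ} (b : Fin m → ℕ) {T : ℕ} (V : Fin T → Finset ℕ) : ℕ :=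
  ((Fintype.piFinset V).filter (fun f => ∀ i j, f i < f j → ∃ k, ¬ IsGap N a (b k * (f j - f i)))).card

open Classical in
/-- The number of the pairs `y < z` of elements of `V` such that all the `N b_k (z - y)` are gaps. -/
noncomputable def goodPairs (N a : ℕ) {m : ℕ} (b : Fin m → ℕ) (V : Finset ℕ) : ℕ :=
  ((V ×ˢ V).filter (fun z => z.1 < z.2 ∧ ∀ k, IsGap N a (b k * (z.2 - z.1)))).card

open Classical in
/-- The number of the `d ≤ H` such that all the `N b_k d` are gaps. -/
noncomputable def goodUpTo (N a : ℕ) {m : ℕ} (b : Fin m → ℕ) (H : ℕ) : ℕ :=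
  ((Icc 1 H).filter (fun d => ∀ k, IsGap N a (b k * d))).card

theorem result : (∀ m : ℕ, 1 ≤ m → ∃ R, Ramsey4 m R) ∧ Ramsey4 2 18 ∧
    ∀ m R : ℕ, 1 ≤ m → Ramsey4 m R →
      (∃ C δ : ℝ, 0 < δ ∧ ∀ N a : ℕ, Squarefree N → 6 ∣ N → a.Coprime N →
        ∀ b : Fin m → ℕ, (∀ k, 1 ≤ b k) →
        (∀ n : ℕ, 1 ≤ n → ∀ V : Fin R → Finset ℕ, (∀ i, n ≤ (V i).card) →
          (exceptions N a b V : ℝ) ≤ C * (n : ℝ) ^ (-δ) * ∏ i, ((V i).card : ℝ)) ∧
        (∀ V : Finset ℕ, 1 ≤ V.card →
          (1 / ((R : ℝ) - 1) - C * (V.card : ℝ) ^ (-δ)) * ((V.card : ℝ) ^ 2 / 2) ≤ goodPairs N a b V)) ∧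
      (∀ ε : ℝ, 0 < ε → ∃ H₀ : ℕ, ∀ N a : ℕ, Squarefree N → 6 ∣ N → a.Coprime N →
        ∀ b : Fin m → ℕ, (∀ k, 1 ≤ b k) → ∀ H : ℕ, H₀ ≤ H →
        (1 / (2 * ((R : ℝ) - 1)) - ε) * (H : ℝ) ≤ goodUpTo N a b H) := by
  classical
  refine ⟨Pool.Agent.Helper22K9.ramsey4_exists, Pool.Agent.Helper22K9.ramsey4_two,
    fun m R hm hR => ⟨?_, fun ε hε => ?_⟩⟩
  · obtain ⟨C₁, δ₁, hC₁, hδ₁, -, h₁⟩ := Pool.Agent.Helper22K9.tupS m R hm hR
    obtain ⟨C₂, δ₂, hC₂, hδ₂, h₂⟩ := Pool.Agent.Helper22K9.pairsS m R hm hR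
    refine ⟨C₁ + C₂, min δ₁ δ₂, lt_min hδ₁ hδ₂, fun N a hsq h6 ha b hb => ⟨fun n hn V hV => ?_,
      fun V hV => ?_⟩⟩
    · have h3 := h₁ N a (Nat.pos_of_ne_zero hsq.ne_zero) h6 hsq ha b hb n hn V hV
      have h4 : (exceptions N a b V : ℝ) ≤ C₁ * (n : ℝ) ^ (-δ₁) * ∏ i, ((V i).card : ℝ) := by
        unfold exceptions
        convert h3
        exact Iff.rfl
      refine h4.trans (mul_le_mul_of_nonneg_right ?_ (prod_nonneg fun i _ => Nat.cast_nonneg _))
      exact Pool.Agent.Helper22K9.mono_aux n hn _ _ _ _ (by linarith) hC₁ (min_le_left _ _)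
    · have h3 := h₂ N a (Nat.pos_of_ne_zero hsq.ne_zero) h6 hsq ha b hb V hV
      have h4 : (1 / ((R : ℝ) - 1) - C₂ * (V.card : ℝ) ^ (-δ₂)) * ((V.card : ℝ) ^ 2 / 2) ≤
          (goodPairs N a b V : ℝ) := by
        unfold goodPairs
        convert h3
        exact Iff.rfl
      refine le_trans (mul_le_mul_of_nonneg_right ?_ (by positivity)) h4
      have := Pool.Agent.Helper22K9.mono_aux V.card hV C₂ (C₁ + C₂) δ₂ (min δ₁ δ₂) (by linarith) hC₂
        (min_le_right _ _)
      linarith
  · obtain ⟨H₀, h⟩ := Pool.Agent.Helper22K9.segS m R hm hR ε hε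
    refine ⟨H₀, fun N a hsq h6 ha b hb H hH => ?_⟩
    exact h N a (Nat.pos_of_ne_zero hsq.ne_zero) h6 hsq ha b hb H hH

end Pool.Agent.Results.MP_70e905_nt.SimultaneousMultiples
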