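import Mathlib
import Pool.Agent.Helper22K9.Unif

/-!
# A third of the first `H` multiples of EVERY even number are gaps between consecutive primes, with `H ≥ H₀(ε)`
# independent of the even number

For every `ε > 0` there is `H₀` such that for EVERY even number `m`, however large, every squarefree even divisor
`N` of `m`, every `a` prime to `N` and every `H ≥ H₀` at least `(1 / 3 - ε) H` of the multiples
`m, 2 m, …, H m` are equal to `p_(l+1) - p_l` with `p_l ≡ a (mod N)`, for at least `x ^ (1 - η)` primes
`p_l ≤ x`, for every `η > 0` and arbitrarily large `x`.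

The starting files have this for windows of consecutive multiples whose length depends on `m` (in an ineffective
way), and for differences of primes which need not be consecutive. Proof: the coloured Maynard-Tao theorem
with four classes of shifts, where the number `K` of the shifts in each class does not depend on the modulus
(`Pool.Agent.Y877.four`), and the combinatorial part of `Pool.Agent.TH899.UG.TD.thirdq`.
-/

set_option autoImplicit false

namespace Pool.Agent.Results.MP_70e905_nt.UniformThird

open Finset Filter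

/-- `d` is, for every `η > 0` and arbitrarily large `x`, the gap `p_(l+1) - p_l` for at least `x ^ (1 - η)` of
the `l` with `p_l ≤ x` and `p_l ≡ a (mod N)`. -/
def IsGap (N a d : ℕ) : Prop := ∀ η : ℝ, 0 < η → ∃ᶠ x : ℝ in atTop,
  x ^ (1 - η) ≤ ({l : ℕ | (Nat.nth Nat.Prime l : ℝ) ≤ x ∧ Nat.nth Nat.Prime l ≡ a [MOD N] ∧
    Nat.nth Nat.Prime (l + 1) = Nat.nth Nat.Prime l + d}.ncard : ℝ)

open Classical in
theorem result (ε : ℝ) (hε : 0 < ε) : ∃ H₀ : ℕ, ∀ m N a : ℕ, 0 < m → 2 ∣ N → Squarefree N → N ∣ m →
    a.Coprime N → ∀ H : ℕ, H₀ ≤ H →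
    (1 / 3 - ε) * (H : ℝ) ≤ (((Icc 1 H).filter (fun k : ℕ => IsGap N a (m * k))).card : ℝ) := by
  obtain ⟨H₀, h⟩ := Pool.Agent.Helper22K9.thirdU ε hε
  refine ⟨H₀, fun m N a hm h2 hsq hNm ha H hH => ?_⟩
  obtain ⟨b, rfl⟩ := hNm
  have hb : 1 ≤ b := Nat.pos_of_ne_zero (by rintro rfl; simp at hm)
  refine (h N a (Nat.pos_of_ne_zero hsq.ne_zero) h2 hsq ha b hb H hH).trans ?_
  rw [Nat.cast_le]
  refine card_le_card fun k hk => ?_
  rw [mem_filter] at hk ⊢
  refine ⟨hk.1, ?_⟩
  have h1 := hk.2
  unfold Pool.Agent.Y877.IsGap at h1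
  unfold IsGap
  rw [mul_assoc]
  exact h1

end Pool.Agent.Results.MP_70e905_nt.UniformThird
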